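import Pool.Agent.Y714.KE.Bas
import Pool.Agent.Y344.KF.Mid

set_option autoImplicit false

/-! MID (etale algebras): failure of the local condition at primes of middle size. -/

namespace Pool.Agent.Y455.KE

open Pool.Agent.Y714.KE
open Pool.Agent.Y714.KF (FI sp ct nm pm ext br gl ubas qf bk el sg bf)
open NumberField FractionalIdeal Module Finset MeasureTheory
open scoped nonZeroDivisors

variable {s : Type} [Fintype s] [DecidableEq s] {K : s → Type} [∀ i, Field (K i)]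
  [∀ i, NumberField (K i)]

/-- the number of the coordinates -/
lemma card_Ix : Fintype.card (Ix K ⊕ Ix K) = 2 * dg K := by
  rw [Fintype.card_sum, Fintype.card_sigma, dg]
  simp only [Fintype.card_fin]
  ring

/-- the product of the scales -/
lemma prod_scale (y : s → ℝ) (p : ℝ) :
    ∏ k : Ix K ⊕ Ix K, (Real.exp (y (cm k)) / p) = tt (K := K) y / p ^ (2 * dg K) := by
  rw [prod_div_distrib, prod_const, card_univ, card_Ix]
  congr 1
  rw [Fintype.prod_sum_type]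
  have h : ∏ j : Ix K, Real.exp (y j.1) = Real.exp (∑ i, (finrank ℚ (K i) : ℝ) * y i) := by
    rw [Fintype.prod_sigma, Real.exp_sum]
    refine prod_congr rfl fun i _ => ?_
    change ∏ _j : Fin (finrank ℚ (K i)), Real.exp (y i) = _
    rw [prod_const, card_univ, Fintype.card_fin, ← Real.exp_nat_mul]
  have h1 : ∏ j : Ix K, Real.exp (y (cm (K := K) (Sum.inl j))) =
      Real.exp (∑ i, (finrank ℚ (K i) : ℝ) * y i) := h
  have h2 : ∏ j : Ix K, Real.exp (y (cm (K := K) (Sum.inr j))) =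
      Real.exp (∑ i, (finrank ℚ (K i) : ℝ) * y i) := h
  rw [h1, h2, ← Real.exp_add, tt]
  congr 1
  ring

theorem mid (h1 : S_LR K) (h2 : S_BOX) : S_MID K := by
  intro hodd h5 κ i₀ I δ hδ
  obtain ⟨b, hb⟩ := exists_bs I
  obtain ⟨C1, hC1, hrb⟩ := exists_br_boundY (K := K) hodd (by omega) κ
  obtain ⟨c, C2, hc, hC2, hbf⟩ := exists_bfA_bound b
  obtain ⟨C4, hC4, hT⟩ := h1 hodd h5 I b hb
  obtain ⟨R, hRdef⟩ : ∃ R : ℝ, R = C1 / (c * δ ^ 2) + 1 := ⟨_, rfl⟩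
  have hR0 : 0 < C1 / (c * δ ^ 2) := by positivity
  have hR : 0 < R := by rw [hRdef]; linarith
  have hR2 : C1 / (c * δ ^ 2) ≤ R ^ 2 := by rw [hRdef]; nlinarith
  obtain ⟨C3, hC3, hbox⟩ := h2 (Ix K ⊕ Ix K) R hR
  have hn2 : 2 ≤ dg K := by omega
  choose T hT1 hT2 using hT
  refine ⟨2 * C3 * C4, by positivity, fun P₀ X y hP₀ hX => ?_⟩
  have htt : 0 < tt (K := K) y := Real.exp_pos _
  classical
  -- the set of the coordinate vectors
  obtain ⟨Z, hZ⟩ : ∃ Z : ℕ → Set (Ix K ⊕ Ix K → ℤ), ∀ p : ℕ, Z p =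
      {z | (∀ k, |(z k : ℝ)| ≤ R * Real.exp (y (cm k))) ∧
        ∃ hp : p.Prime, (fun i => (z i : ZMod p)) ∈ (T p hp)ᶜ} := ⟨_, fun _ => rfl⟩
  obtain ⟨F, hF⟩ : ∃ F : Finset ℕ, F = (range (⌊X⌋₊ + 1)).filter
      (fun p : ℕ => p.Prime ∧ P₀ < (p : ℝ)) := ⟨_, rfl⟩
  have hZp : ∀ p ∈ F, (Z p).Finite ∧ ((Z p).ncard : ℝ) ≤ C3 * C4 * tt (K := K) y *
      ((p : ℝ) ^ 2)⁻¹ := by
    intro p hp
    rw [hF, mem_filter, mem_range] at hp
    obtain ⟨hp1, hpp, hp2⟩ := hp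
    have hpX : (p : ℝ) ≤ X := by
      have : p ≤ ⌊X⌋₊ := by omega
      exact (Nat.le_floor_iff' hpp.ne_zero).1 this
    have heq : Z p = {z | (∀ k, |(z k : ℝ)| ≤ R * Real.exp (y (cm k))) ∧
        (fun i => (z i : ZMod p)) ∈ (T p hpp)ᶜ} := by
      rw [hZ]
      ext z
      constructor
      · rintro ⟨h, _, h'⟩
        exact ⟨h, h'⟩
      · rintro ⟨h, h'⟩
        exact ⟨h, hpp, h'⟩
    obtain ⟨hfin, hcard⟩ := hbox p hpp.one_lt.le (fun k => Real.exp (y (cm k)))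
      (fun k => hpX.trans (hX _)) (T p hpp)ᶜ
    rw [heq]
    refine ⟨hfin, hcard.trans ?_⟩
    have hp0 : (0 : ℝ) < p := by exact_mod_cast hpp.pos
    rw [prod_scale]
    have hTc := hT2 p hpp
    have e : (p : ℝ) ^ (2 * dg K) = (p : ℝ) ^ (2 * dg K - 2) * (p : ℝ) ^ 2 := by
      rw [← pow_add]; congr 1; omega
    calc C3 * ((T p hpp)ᶜ.ncard : ℝ) * (tt (K := K) y / (p : ℝ) ^ (2 * dg K)) ≤
          C3 * (C4 * (p : ℝ) ^ (2 * dg K - 2)) * (tt (K := K) y / (p : ℝ) ^ (2 * dg K)) := by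
            gcongr
      _ = _ := by
          rw [e]
          field_simp
  -- the covering
  have hcov : {M ∈ SY κ i₀ (cf I) y | (∀ x ∈ M, x ≠ 0 → δ ^ 2 < QY y x) ∧
      ∃ p : ℕ, p.Prime ∧ P₀ < p ∧ (p : ℝ) ≤ X ∧ ¬ Loc p (cf I) M} ⊆
      ⋃ p ∈ F, (fun z => LT (pr b z)) '' Z p := by
    rintro M ⟨⟨P, rfl, hctP, hNdP, hNzP, huiP, hpmP⟩, hshort, p, hp, hpP, hpX, hLoc⟩
    obtain ⟨Q, hLQ, hRBQ, hNdQ⟩ := exists_rbY y hNdP hn2
    have hIndQ := hNdQ.ind hn2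
    obtain ⟨-, -, hccQ, huiQ, -⟩ := LT_inv hodd hn2 hNdP hLQ.symm
    have hctQ : ∀ i, cn Q i ≤ cf I i := by
      rw [cn_congr hLQ]
      exact hctP
    obtain ⟨z, hprz⟩ := exists_pr hb hctQ
    have hNZQ : NZ κ (vc Q) := by
      intro j
      rw [hccQ]
      exact hNzP j
    have hb4 := (hrb y Q hNdQ hNZQ (fun i => by
      rw [huiQ]
      exact ui_le hodd (by omega) hNdP huiP hpmP i)).2 hRBQ
    have hQ0 : Q.1 ≠ 0 := by
      intro h0
      have := (hIndQ 1 0 (by rw [h0, smul_zero, zero_smul, add_zero])).1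
      exact one_ne_zero this
    have hsh := hshort Q.1 (by rw [← hLQ]; exact fst_mem_LT Q) hQ0
    have hq2 : QY y Q.2 ≤ C1 / δ ^ 2 := by
      rw [le_div_iff₀ (by positivity)]
      have h3 : δ ^ 2 * QY y Q.2 ≤ QY y Q.1 * QY y Q.2 :=
        mul_le_mul_of_nonneg_right hsh.le (QY_nonneg _ _)
      linarith
    have hq1 : QY y Q.1 ≤ C1 / δ ^ 2 := hRBQ.1.trans hq2
    have hbd : ∀ x : Ix K → ℝ, bfA b x x ≤ C1 / δ ^ 2 → ∀ j, |x j| ≤ R := by
      intro x hx j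
      have h3 := (hbf x).1
      have h4 : ‖x‖ ^ 2 ≤ R ^ 2 := by
        refine le_trans ?_ hR2
        rw [← div_div, div_right_comm, le_div_iff₀ hc]
        linarith
      have h8 : ‖x‖ ≤ R := (pow_le_pow_iff_left₀ (norm_nonneg _) hR.le two_ne_zero).1 h4
      have h9 := norm_le_pi_norm x j
      rw [Real.norm_eq_abs] at h9
      exact h9.trans h8
    have hsc : ∀ k, |scl y z k| ≤ R → |(z k : ℝ)| ≤ R * Real.exp (y (cm k)) := by
      intro k hk
      unfold scl at hk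
      rw [abs_div, abs_of_pos (Real.exp_pos _), div_le_iff₀ (Real.exp_pos _)] at hk
      exact hk
    have hzn : ∀ k, |(z k : ℝ)| ≤ R * Real.exp (y (cm k)) := by
      rintro (k | k)
      · exact hsc _ (hbd (lf (scl y z)) (by rw [← QY_pr1, hprz]; exact hq1) k)
      · exact hsc _ (hbd (rt (scl y z)) (by rw [← QY_pr2, hprz]; exact hq2) k)
    have hpF : p ∈ F := by
      rw [hF, mem_filter, mem_range]
      refine ⟨?_, hp, hpP⟩
      have := (Nat.le_floor_iff' hp.ne_zero).2 hpX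
      omega
    rw [Set.mem_iUnion₂]
    refine ⟨p, hpF, z, ?_, ?_⟩
    · rw [hZ]
      refine ⟨hzn, hp, ?_⟩
      intro hmem
      apply hLoc
      have h3 := (hT1 p hp z (by rw [hprz]; exact hIndQ)).2 hmem
      rw [hprz, hLQ] at h3
      exact h3
    · simp only
      rw [hprz, hLQ]
  have hfinU : (⋃ p ∈ F, (fun z => LT (pr b z)) '' Z p).Finite :=
    Set.Finite.biUnion F.finite_toSet fun p hp => ((hZp p hp).1).image _
  have hle : ({M ∈ SY κ i₀ (cf I) y | (∀ x ∈ M, x ≠ 0 → δ ^ 2 < QY y x) ∧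
      ∃ p : ℕ, p.Prime ∧ P₀ < p ∧ (p : ℝ) ≤ X ∧ ¬ Loc p (cf I) M}.ncard : ℝ) ≤
      ∑ p ∈ F, ((Z p).ncard : ℝ) := by
    have h3 := Set.ncard_le_ncard hcov hfinU
    have h4 := F.set_ncard_biUnion_le (fun p => (fun z => LT (pr b z)) '' Z p)
    have h5 : ∑ p ∈ F, ((fun z => LT (pr b z)) '' Z p).ncard ≤ ∑ p ∈ F, (Z p).ncard :=
      sum_le_sum fun p hp => Set.ncard_image_le (hZp p hp).1
    have h6 := h3.trans (h4.trans h5)
    exact_mod_cast h6
  refine hle.trans ?_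
  have htail := Pool.Agent.Y344.KF.tail hP₀ (⌊X⌋₊) F (fun p hp => by
    rw [hF, mem_filter, mem_range] at hp
    exact ⟨hp.2.2, by omega⟩)
  calc ∑ p ∈ F, ((Z p).ncard : ℝ) ≤
        ∑ p ∈ F, C3 * C4 * tt (K := K) y * ((p : ℝ) ^ 2)⁻¹ :=
        sum_le_sum fun p hp => (hZp p hp).2
    _ = C3 * C4 * tt (K := K) y * ∑ p ∈ F, ((p : ℝ) ^ 2)⁻¹ := by rw [mul_sum]
    _ ≤ C3 * C4 * tt (K := K) y * (2 / P₀) := by gcongr
    _ = _ := by ring

end Pool.Agent.Y455.KE
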